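import Pool.Agent.H.MP_342291_lc.Defs
import Pool.Agent.Lib.helper21.Queue

set_option autoImplicit false

namespace Pool.Agent.H.MP_342291_lc

open Function Pool.Agent.Lib.helper21.Mach Pool.Agent.Lib.helper21.While

inductive Sy (Q : Type) (K : ℕ)
  | z | s | c (a : Option (Q × Bool)) | m (i : Fin (K + 1)) (b : Bool)
  deriving Fintype

inductive Kd (Q : Type) (K : ℕ)
  | kap | ext | cyc (i : Fin (K + 1)) (b : Bool) | mu (a : Option (Q × Bool)) (i : Fin (K + 1))
  | rho (a : Option (Q × Bool)) (i : Fin (K + 1)) | err (b : Bool)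
  deriving Fintype

variable {Q : Type} {K : ℕ} {V W : Type}

@[reducible] def ar : Sy Q K → ℕ
  | .z => 0 | .s => 1 | .c _ => K + 2 | .m .. => 2

abbrev T (Q : Type) (K : ℕ) (V : Type) := Tm (ar (Q := Q) (K := K)) V

def Z : T Q K V := .ap .z ![]
def Sc (t : T Q K V) : T Q K V := .ap .s ![t]
def Mk (i : Fin (K + 1)) (b : Bool) (x y : T Q K V) : T Q K V := .ap (.m i b) ![x, y]
def hd : T Q K V → Sy Q K
  | .ap f _ => f
  | _ => .z
def arg : T Q K V → ℕ → T Q K V
  | .ap f ts, n => if h : n < ar f then ts ⟨n, h⟩ else Z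
  | _, _ => Z

variable (M : CM Q) (q0 : Q)

def A (a : Option (Q × Bool)) (i : ℕ) (x : T Q K V) : T Q K V :=
  a.elim (if i = 0 then x else Z) fun a => if M.reg a.1 = i ∧ M.eff a.1 a.2 = some true then Sc x else x
def B (a : Option (Q × Bool)) (i : ℕ) (x : T Q K V) : T Q K V :=
  a.elim x fun a => if M.reg a.1 = i ∧ M.eff a.1 a.2 = some false then Sc x else x

def ok : Sy Q K → ℕ → Sy Q K → Prop
  | .s, _, g => g = .z ∨ g = .s
  | .c a, 0, g => ∀ q, a.elim (some q0) (fun a => M.nxt a.1 a.2) = some q → ∃ b, g = .c (some (q, b))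
  | .c a, j + 1, g => (g = .z ∨ g = .s) ∧ ∀ q b, a = some (q, b) → j = M.reg q → (g = .z ↔ b = true)
  | _, _, _ => True

def cnd : Kd Q K → Sy Q K → ℕ → Sy Q K → Prop
  | .kap, f, _, _ => f = .s ∨ ∃ a, f = .c (some a)
  | .ext, f, _, _ => f = .c none
  | .cyc i b, f, _, _ => f = .m i b
  | .mu a _, f, _, _ => f = .c a
  | .rho a _, f, j, g => f = .c a ∧ j = 0 ∧ ∃ a', g = .c a'
  | .err _, f, j, g => ¬ok M q0 f j g

def out : Kd Q K → T Q K V → T Q K V
  | .kap, _ => Z
  | .ext, t => Sc (arg t 1)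
  | .cyc i b, t => Mk i (!b) (arg t 0) (arg t 1)
  | .mu a i, t => Mk i false (A M a i (arg t (i + 1))) t
  | .rho a i, t => Mk i false (B M a i (arg (arg t 0) (i + 1))) t
  | .err b, t => Mk 0 false (if b then Sc Z else Z) t

def pat (f : Sy Q K) (j : Fin (ar f)) (g : Sy Q K) : T Q K ℕ :=
  .ap f (update (fun i => .var (2 * i)) j (.ap g fun i => .var (2 * i + 1)))

def R : Set (T Q K ℕ × T Q K ℕ) := 
  {p | ∃ f, ∃ j : Fin (ar f), ∃ g k, cnd M q0 k f j g ∧ p = (pat f j g, out M k (pat f j g))}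

def Rt (t u : T Q K Empty) : Prop := ∃ k, ∃ j < ar (hd t), cnd M q0 k (hd t) j (hd (arg t j)) ∧ u = out M k t

theorem R_fin [Fintype Q] : (R M q0 (K := K)).Finite :=
  (Set.finite_range fun x : (Σ f : Sy Q K, Fin (ar f)) × Sy Q K × Kd Q K =>
    (pat x.1.1 x.1.2 x.2.1, out M x.2.2 (pat x.1.1 x.1.2 x.2.1))).subset
      fun _ ⟨f, j, g, k, _, e⟩ => ⟨⟨⟨f, j⟩, g, k⟩, e.symm⟩

@[simp] theorem vZ : (Z : T Q K V).vars = ∅ := by simp [Z, Tm.vars]
@[simp] theorem vS (t : T Q K V) : (Sc t).vars = t.vars := by ext; simp [Sc, Tm.vars]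
@[simp] theorem vM (i b) (t u : T Q K V) : (Mk i b t u).vars = t.vars ∪ u.vars := by
  ext; simp [Mk, Tm.vars, Fin.exists_fin_two]
theorem vA (t : T Q K V) (n : ℕ) : (arg t n).vars ⊆ t.vars := by
  cases t <;> simp only [arg]
  · simp
  · split_ifs
    exacts [Set.subset_iUnion_of_subset _ subset_rfl, by simp]

theorem v_out (k : Kd Q K) (t : T Q K V) : (out M k t).vars ⊆ t.vars := by
  have h1 := vA t
  have h2 := fun n => (vA _ n).trans (h1 0)
  cases k with
  | mu a | rho a => cases a <;> simp only [out, A, B, Option.elim] <;> (try split_ifs) <;> simp [*]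
  | err b => cases b <;> simp [out]
  | _ => simp [out, *]

@[simp] theorem sZ (σ : V → T Q K W) : Z.subst σ = Z := congrArg _ (funext fun i => i.elim0)
@[simp] theorem sS (σ : V → T Q K W) (t) : (Sc t).subst σ = Sc (t.subst σ) :=
  congrArg _ (funext fun i => by fin_cases i; rfl)
@[simp] theorem sM (σ : V → T Q K W) (i b t u) : (Mk i b t u).subst σ = Mk i b (t.subst σ) (u.subst σ) :=
  congrArg _ (funext fun i => by fin_cases i <;> rfl)
theorem sA (σ : V → T Q K W) (f ts n) : (arg (.ap f ts) n).subst σ = arg ((Tm.ap f ts).subst σ) n := by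
  simp only [arg, Tm.subst]
  split_ifs <;> simp

theorem arg_ap (f : Sy Q K) (ts : Fin (ar f) → T Q K V) (j : Fin (ar f)) : arg (.ap f ts) j = ts j := by simp [arg]

variable {M q0}

theorem s_out {k f g} {j : Fin (ar f)} (σ : ℕ → T Q K W) (h : cnd M q0 k f j g) :
    (out M k (pat f j g)).subst σ = out M k ((pat f j g).subst σ) := by
  have h1 := sA σ f
  cases k with
  | mu a => cases a <;> simp only [out, A, Option.elim, pat, ← h1] <;> split_ifs <;> simp
  | rho a i =>
    have : (arg (arg (pat f j g) 0) (i + 1)).subst σ = arg (arg ((pat f j g).subst σ) 0) (i + 1) := by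
      rw [pat, ← h1, ← h.2.1, arg_ap, update_self, sA]
    cases a <;> simp only [out, B, Option.elim, ← this] <;> (try split_ifs) <;> simp
  | err b => cases b <;> simp [out]
  | _ => simp [out, pat, h1]

theorem step_iff {t u : T Q K Empty} : Step (R M q0) t u ↔ Rt M q0 t u ∨
    ∃ f ts i v, t = .ap f ts ∧ Step (R M q0) (ts i) v ∧ u = .ap f (update ts i v) := by
  constructor
  · rintro (⟨σ, f, j, g, k, h, ⟨⟩⟩ | h)
    · refine .inl ⟨k, j, j.2, ?_, s_out σ h⟩
      simpa only [pat, Tm.subst, arg_ap, update_self, hd] using h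
    · exact .inr ⟨_, _, _, _, rfl, h, rfl⟩
  · rintro (⟨k, j, hj, h, rfl⟩ | ⟨f, ts, i, v, rfl, h, rfl⟩)
    · obtain ⟨⟨⟩⟩ | ⟨f, ts⟩ := t
      obtain ⟨j, rfl⟩ : ∃ i : Fin (ar f), i = j := ⟨⟨j, hj⟩, rfl⟩
      rw [arg_ap] at h
      have : Tm.ap f ts = (pat f j (hd (ts j))).subst fun n => arg (if n % 2 = 0 then .ap f ts else ts j) (n / 2) := by
        refine congrArg _ (funext fun i => ?_)
        by_cases e : i = j
        · rw [e, update_self]
          rcases ts j with ⟨⟨⟩⟩ | ⟨g, us⟩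
          refine congrArg _ (funext fun i => ?_)
          simp [Tm.subst, Nat.mul_add_div, hd, arg_ap]
        · simp [e, Tm.subst, arg_ap]
      rw [this, ← s_out (f := f) _ h]
      exact .root _ ⟨_, _, _, _, h, rfl⟩
    · exact .arg h

end Pool.Agent.H.MP_342291_lc
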