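import Pool.Agent.H.MP_342291_lc.A

set_option autoImplicit false

namespace Pool.Agent.H.MP_342291_lc

open Function Pool.Agent.Lib.helper21.Mach Pool.Agent.Lib.helper21.While

variable {Q : Type} {K : ℕ} {M : CM Q} {q0 : Q} {t u x y w : T Q K Empty} {f : Sy Q K}
  {ts : Fin (ar f) → T Q K Empty}

theorem Tm.ind {P : T Q K Empty → Prop} (h : ∀ f ts, (∀ i, P (ts i)) → P (.ap f ts)) (t : T Q K Empty) : P t := by
  induction t with
  | var x => exact x.elim
  | ap f ts ih => exact h f ts ih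

@[simp] theorem hd_ap : hd (.ap f ts) = f := rfl
@[simp] theorem hd_Z : hd (Z : T Q K Empty) = .z := rfl
@[simp] theorem hd_S : hd (Sc t) = .s := rfl
@[simp] theorem hd_M {i b} : hd (Mk i b t u) = .m i b := rfl
@[simp] theorem arg_S : arg (Sc t) 0 = t := rfl
@[simp] theorem arg_M0 {i b} : arg (Mk i b t u) 0 = t := rfl
@[simp] theorem arg_M1 {i b} : arg (Mk i b t u) 1 = u := rfl
@[simp] theorem S_inj : Sc t = Sc u ↔ t = u := ⟨fun h => congrArg (arg · 0) h, congrArg _⟩
theorem ap_inj {us : Fin (ar f) → T Q K Empty} (h : Tm.ap f ts = .ap f us) : ts = us := by simpa using h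

theorem eq_Z (h : hd t = .z) : t = Z := by
  obtain ⟨⟨⟩⟩ | ⟨f, ts⟩ := t
  cases h
  exact congrArg _ (funext fun i => i.elim0)
theorem eq_S (h : hd t = .s) : t = Sc (arg t 0) := by
  obtain ⟨⟨⟩⟩ | ⟨f, ts⟩ := t
  cases h
  exact congrArg _ (funext fun i => by fin_cases i; rfl)
theorem eq_M {i b} (h : hd t = .m i b) : t = Mk i b (arg t 0) (arg t 1) := by
  obtain ⟨⟨⟩⟩ | ⟨f, ts⟩ := t
  cases h
  exact congrArg _ (funext fun i => by fin_cases i <;> rfl)

theorem Rt.ne (h : Rt M q0 t u) : hd u ≠ hd t := by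
  obtain ⟨k, j, -, h, rfl⟩ := h
  cases k <;> simp only [cnd, out] at h ⊢
  case err => exact fun e => h (by rw [← e]; trivial)
  case kap => rcases h with h | ⟨_, h⟩ <;> simp [h]
  all_goals simp [h]

theorem step_ap : Step (R M q0) (.ap f ts) u ↔ Rt M q0 (.ap f ts) u ∨
    ∃ i v, Step (R M q0) (ts i) v ∧ u = .ap f (update ts i v) := by
  rw [step_iff]
  refine or_congr_right ⟨?_, fun ⟨i, v, h⟩ => ⟨_, _, i, v, rfl, h⟩⟩
  rintro ⟨_, _, i, v, ⟨⟩, h⟩
  exact ⟨i, v, h⟩

theorem Step.rt (h : Step (R M q0) t u) (e : hd u ≠ hd t) : Rt M q0 t u :=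
  (step_iff.1 h).resolve_right fun ⟨_, _, _, _, a, _, b⟩ => e (by rw [a, b]; rfl)

theorem Rt.step (h : Rt M q0 t u) : Step (R M q0) t u := step_iff.2 (.inl h)

theorem irr : ¬Step (R M q0) t t := by
  induction t using Tm.ind with | h f ts ih =>
  intro h
  rcases step_ap.1 h with h | ⟨i, v, h, e⟩
  · exact h.ne rfl
  · exact ih i (by simpa [congrFun (ap_inj e) i] using h)

theorem rt_m {i b} (e : hd t = .m i b) : Rt M q0 t u ↔ u = Mk i (!b) (arg t 0) (arg t 1) := by
  refine ⟨fun ⟨k, j, _, h, e'⟩ => ?_, fun h => ⟨.cyc i b, 0, by simp [e], e, h⟩⟩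
  cases k <;> simp_all [cnd, out, ok]

theorem Rt.cs (h : Rt M q0 t u) : (u = Z ∧ (hd t = .s ∨ ∃ a, hd t = .c (some a))) ∨
    (hd t = .c none ∧ u = Sc (arg t 1)) ∨ ∃ i b, hd u = .m i b := by
  obtain ⟨k, j, -, h, rfl⟩ := h
  cases k <;> simp_all [cnd, out]

theorem st_z : ¬Step (R M q0) (Z : T Q K Empty) u := fun h => by
  rcases step_ap.1 h with ⟨_, _, h, -⟩ | ⟨i, -⟩
  exacts [by simp at h, i.elim0]

def Mrk : T Q K Empty → Prop
  | .ap f ts => (∃ i b, f = .m i b) ∨ ∃ j, Mrk (ts j)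
  | _ => False

theorem mrk_m {i b} (h : hd t = .m i b) : Mrk t := by
  rw [eq_M h]
  exact .inl ⟨_, _, rfl⟩

def C2 (M : CM Q) (q0 : Q) (t : T Q K Empty) : Prop := ∃ a, Step (R M q0) t a ∧ Step (R M q0) a t

theorem c2_iff : C2 M q0 t ↔ Mrk t := by
  induction t using Tm.ind with | h f ts ih =>
  constructor
  · rintro ⟨u, h1, h2⟩
    rcases step_ap.1 h1 with h | ⟨i, v, h, rfl⟩
    · rcases (h2.rt h.ne.symm).cs with ⟨e, -⟩ | ⟨e, -⟩ | ⟨i, b, e⟩
      · exact (st_z (e ▸ h1)).elim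
      · rcases h.cs with ⟨rfl, -⟩ | ⟨-, rfl⟩ | ⟨_, _, e'⟩ <;> simp_all
      · exact mrk_m e
    · rcases step_ap.1 h2 with h' | ⟨j, w, h', e⟩
      · exact (h'.ne rfl).elim
      have e := ap_inj e
      by_cases a : i = j
      · subst a
        exact .inr ⟨i, (ih i).1 ⟨v, h, by simpa [congrFun e i] using h'⟩⟩
      · exact (irr (by simpa [congrFun e i, a] using h)).elim
  · rintro (⟨i, b, rfl⟩ | ⟨j, h⟩)
    · exact ⟨_, ((rt_m rfl).2 rfl).step, ((rt_m rfl).2 (by simpa using eq_M rfl)).step⟩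
    · obtain ⟨a, h1, h2⟩ := (ih j).2 h
      exact ⟨_, .arg h1, by
        simpa using Step.arg (f := f) (ts := update ts j a) (i := j) (u := ts j) (by simpa using h2)⟩

def num : ℕ → T Q K Empty
  | 0 => Z
  | n + 1 => Sc (num n)

theorem num_inj {a b : ℕ} : (num a : T Q K Empty) = num b ↔ a = b := by
  induction a generalizing b with
  | zero => cases b <;> simp [num, Z, Sc]
  | succ a ih => cases b <;> simp [num, ih]; simp [Z, Sc]

theorem hd_num (n : ℕ) : hd (num n : T Q K Empty) = .z ∨ hd (num n : T Q K Empty) = .s := by cases n <;> simp [num]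

theorem kap (h : hd t = .s ∨ ∃ a, hd t = .c (some a)) : Step (R M q0) t Z :=
  Rt.step ⟨.kap, 0, by rcases h with h | ⟨_, h⟩ <;> simp [h], h, rfl⟩

theorem st_s (h : Step (R M q0) t u) : Step (R M q0) (Sc t) (Sc u) := by
  have := Step.arg (R := R M q0) (f := .s) (ts := ![t]) (i := 0) h
  rwa [show update ![t] 0 u = ![u] from funext fun i => by fin_cases i; rfl] at this

theorem st_num {n : ℕ} : Step (R M q0) (num n) u ↔ ∃ k < n, u = num k := by
  induction n generalizing u with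
  | zero => simpa [num] using st_z
  | succ n ih =>
    constructor
    · intro h
      rcases step_ap.1 h with ⟨k, j, h1, h, rfl⟩ | ⟨i, v, h', rfl⟩
      · obtain rfl : j = 0 := by simpa using h1
        have := hd_num (Q := Q) (K := K) n
        cases k <;> simp_all [cnd, out, ok, arg]
        exact ⟨0, by simp, rfl⟩
      · fin_cases i
        obtain ⟨k, h, rfl⟩ := ih.1 h'
        exact ⟨k + 1, by simpa, congrArg _ (funext fun i => by fin_cases i; rfl)⟩
    · rintro ⟨_ | k, h, rfl⟩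
      exacts [kap (.inl rfl), st_s (ih.2 ⟨k, by omega, rfl⟩)]

theorem st_nn {a b : ℕ} : Step (R M q0) (num a : T Q K Empty) (num b) ↔ b < a := by simp [st_num, num_inj]

theorem mrk_num (n : ℕ) : ¬Mrk (num n : T Q K Empty) := by
  induction n <;> simp_all [num, Z, Sc, Mrk]

def Nu (M : CM Q) (q0 : Q) (t : T Q K Empty) : Prop := ∃ y, Step (R M q0) t y ∧ C2 M q0 y

theorem mu (a) (i : Fin (K + 1)) (h : hd t = .c a) : Step (R M q0) t (Mk i false (A M a i (arg t (i + 1))) t) :=
  Rt.step ⟨.mu a i, 0, by simp [h], h, rfl⟩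

theorem nu_iff : Nu M q0 t ↔ ∀ n, t ≠ num n := by
  simp only [Nu, c2_iff]
  refine ⟨fun ⟨y, h1, h2⟩ n e => ?_, fun h => ?_⟩
  · obtain ⟨k, -, rfl⟩ := st_num.1 (e ▸ h1)
    exact mrk_num k h2
  induction t using Tm.ind with | h f ts ih =>
  cases f with
  | z => exact (h 0 (eq_Z rfl)).elim
  | s =>
    obtain ⟨y, h1, h2⟩ := ih 0 fun n e => h (n + 1) (by rw [num, ← e]; exact eq_S rfl)
    exact ⟨_, .arg h1, .inr ⟨0, by simpa⟩⟩
  | c a => exact ⟨_, mu a 0 rfl, mrk_m rfl⟩
  | m i b => exact ⟨_, ((rt_m rfl).2 rfl).step, mrk_m rfl⟩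

def P (M : CM Q) (q0 : Q) (t : T Q K Empty) : Prop :=
  (∀ i b, hd t ≠ .m i b) ∧ (∀ j < ar (hd t), ok M q0 (hd t) j (hd (arg t j))) ∧
    ∀ a a', ∀ i : Fin (K + 1), hd t = .c a → hd (arg t 0) = .c a' →
      A M a i (arg t (i + 1)) = B M a i (arg (arg t 0) (i + 1))

def Good (M : CM Q) (q0 : Q) : T Q K Empty → Prop
  | .ap f ts => P M q0 (.ap f ts) ∧ ∀ j, Good M q0 (ts j)
  | _ => False

theorem Good.p (h : Good M q0 t) : P M q0 t := by
  obtain ⟨⟨⟩⟩ | _ := t
  exact h.1

theorem good_Z : Good M q0 (Z : T Q K Empty) := by simp [Z, Good, P]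

theorem Good.arg (h : Good M q0 t) (n : ℕ) : Good M q0 (arg t n) := by
  obtain ⟨⟨⟩⟩ | _ := t
  simp only [MP_342291_lc.arg]
  split_ifs
  exacts [h.2 _, good_Z]

theorem Good.mrk (h : Good M q0 t) : ¬Mrk t := by
  induction t using Tm.ind with | h f ts ih =>
  rintro (⟨i, b, e⟩ | ⟨j, e⟩)
  exacts [h.1.1 i b e, ih j (h.2 j) e]

theorem Good.num (h : Good M q0 t) (e : hd t = .z ∨ hd t = .s) : ∃ n, t = num n := by
  induction t using Tm.ind with | h f ts ih =>
  rcases e with rfl | rfl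
  · exact ⟨0, eq_Z rfl⟩
  · obtain ⟨n, e⟩ := ih 0 (h.2 0) (h.1.2.1 0 (by simp))
    exact ⟨n + 1, by rw [MP_342291_lc.num, ← e]; exact eq_S rfl⟩

theorem good_num (n : ℕ) : Good M q0 (num n : T Q K Empty) := by
  induction n with
  | zero => exact good_Z
  | succ n ih =>
    refine ⟨⟨by simp, fun j hj => ?_, by simp⟩, fun j => by fin_cases j; exact ih⟩
    obtain rfl : j = 0 := by simpa using hj
    exact hd_num n

inductive M1 (M : CM Q) : T Q K Empty → T Q K Empty → Prop
  | root {t : T Q K Empty} (a : Option (Q × Bool)) (i : Fin (K + 1)) : hd t = .c a → M1 M t (Mk i false (A M a i (arg t (i + 1))) t)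
  | arg {f : Sy Q K} {ts : Fin (ar f) → T Q K Empty} {i : Fin (ar f)} {u : T Q K Empty} :
      M1 M (ts i) u → M1 M (.ap f ts) (.ap f (update ts i u))

theorem M1.mrk (h : M1 M t u) : Mrk u := by
  induction h with
  | root => exact mrk_m rfl
  | @arg _ _ i _ _ ih => exact .inr ⟨i, by simpa⟩

theorem Good.m1 (h : Good M q0 t) (h1 : Step (R M q0) t u) (h2 : Mrk u) : M1 M t u := by
  induction t using Tm.ind generalizing u with | h f ts ih =>
  rcases step_ap.1 h1 with ⟨k, j, a1, a2, rfl⟩ | ⟨i, v, h3, rfl⟩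
  · cases k with
    | kap => exact (mrk_num 0 h2).elim
    | ext => exact ((h.arg 1).mrk (by simpa [out, Sc, Mrk] using h2)).elim
    | cyc => exact (h.1.1 _ _ a2).elim
    | mu => exact .root _ _ a2
    | rho a i =>
      obtain ⟨a2, rfl, a', a3⟩ := a2
      exact (out.eq_5 ..).symm ▸ h.1.2.2 a a' i a2 a3 ▸ .root _ _ a2
    | err => exact (a2 (h.1.2.1 j a1)).elim
  · rcases h2 with ⟨_, _, e⟩ | ⟨j, e⟩
    · exact (h.1.1 _ _ e).elim
    · by_cases a : j = i
      · exact .arg (ih i (h.2 i) h3 (by simpa [a] using e))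
      · exact ((h.2 j).mrk (by simpa [a] using e)).elim

theorem M1.no (h : ¬Mrk t) (h1 : M1 M t y) (h2 : M1 M t w) : ¬Step (R M q0) y w := by
  induction h1 generalizing w with
  | root a i e =>
    intro h3
    cases h2 with
    | root a' j e' =>
      obtain rfl : a = a' := by simpa [e] using e'
      by_cases e : i = j
      · exact irr (e ▸ h3)
      · simpa using congrArg hd ((rt_m rfl).1 (h3.rt (by simp [Ne.symm e])))
    | arg => 
      cases e
      simpa using congrArg hd ((rt_m rfl).1 (h3.rt (by simp)))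
  | @arg f ts i u h1 ih =>
    intro h3
    have hu := h1.mrk
    have ht : ∀ j, ¬Mrk (ts j) := fun j e => h (.inr ⟨j, e⟩)
    generalize e : Tm.ap f ts = t at h2
    cases h2 with
    | root a j e' =>
      subst e
      cases e'
      obtain ⟨k, _, -, a1, a2⟩ := h3.rt (by simp)
      have b1 := congrArg (MP_342291_lc.arg · 1) a2
      have b2 := fun e : Tm.ap _ ts = .ap _ (update ts i u) => ht i (by simpa [congrFun (ap_inj e) i])
      have b3 := congrArg hd a2
      cases k <;> first | exact b2 b1 | simp [cnd, out] at a1 b3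
    | @arg _ _ j v h2 =>
      cases e
      rcases step_ap.1 h3 with h3 | ⟨l, x, h3, e⟩
      · exact h3.ne rfl
      have e := ap_inj e
      have a1 := congrFun e i
      have a2 := congrFun e j
      have a3 := congrFun e l
      have a4 := h2.mrk
      by_cases b1 : l = i <;> by_cases b2 : j = i
      · subst b1 b2
        exact ih (ht _) h2 (by simp_all)
      · exact ht j (by simp_all)
      · exact irr (M := M) (q0 := q0) (t := x) (by simp_all)
      · exact ht i (by simp_all [Ne.symm b1, Ne.symm b2])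

end Pool.Agent.H.MP_342291_lc
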