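import Pool.Agent.H.MP_342291_lc.B

set_option autoImplicit false

namespace Pool.Agent.H.MP_342291_lc

open Function Pool.Agent.Lib.helper21.Mach Pool.Agent.Lib.helper21.While

variable {Q : Type} {K : ℕ} {M : CM Q} {q0 : Q} {t u x y w : T Q K Empty}

def Ineq (M : CM Q) (q0 : Q) (x : T Q K Empty) : Prop :=
  ∃ y w, Step (R M q0) x y ∧ Step (R M q0) x w ∧ Step (R M q0) y w ∧ C2 M q0 y ∧ C2 M q0 w

theorem ineq_of {i a b} (h1 : Step (R M q0) x (Mk i false (num a) x)) (h2 : Step (R M q0) x (Mk i false (num b) x))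
    (h : a ≠ b) : Ineq M q0 x := by
  wlog e : a < b generalizing a b
  · exact this h2 h1 h.symm (by omega)
  refine ⟨_, _, h2, h1, ?_, c2_iff.2 (mrk_m rfl), c2_iff.2 (mrk_m rfl)⟩
  have := Step.arg (R := R M q0) (f := .m i false) (ts := ![num b, x]) (i := 0) (st_nn.2 e)
  rwa [show update ![num b, x] 0 (num a) = ![num a, x] from funext fun i => by fin_cases i <;> rfl] at this

theorem good_iff : Good M q0 x ↔ ¬C2 M q0 x ∧ ¬Ineq M q0 x := by
  simp only [c2_iff]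
  refine ⟨fun h => ⟨h.mrk, fun ⟨y, w, a, b, c, d, e⟩ =>
    (h.m1 a (c2_iff.1 d)).no h.mrk (h.m1 b (c2_iff.1 e)) c⟩, ?_⟩
  induction x using Tm.ind with | h f ts ih =>
  intro ⟨h1, h2⟩
  have g : ∀ j, Good M q0 (ts j) := fun j => ih j ⟨fun e => h1 (.inr ⟨j, e⟩), fun ⟨y, w, a, b, c, d, e⟩ =>
    h2 ⟨_, _, .arg a, .arg b, by
      simpa using Step.arg (f := f) (ts := update ts j y) (i := j) (u := w) (by simpa using c),
      c2_iff.2 (.inr ⟨j, by simpa using c2_iff.1 d⟩), c2_iff.2 (.inr ⟨j, by simpa using c2_iff.1 e⟩)⟩⟩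
  have o : ∀ j < ar f, ok M q0 f j (hd (arg (.ap f ts) j)) := fun j hj => by_contra fun e =>
    h2 (ineq_of (a := 0) (b := 1) (Rt.step ⟨.err false, j, hj, e, rfl⟩) (Rt.step ⟨.err true, j, hj, e, rfl⟩) (by simp))
  refine ⟨⟨fun i b e => h1 (mrk_m e), o, fun a a' i e e' => by_contra fun c => h2 ?_⟩, g⟩
  cases e
  have g0 : Good M q0 (arg (.ap _ ts) 0) := g 0
  obtain ⟨n, e1⟩ := Good.num (t := arg (.ap _ ts) (i + 1)) ((arg_ap _ ts i.succ).symm ▸ g i.succ)
    (o (i + 1) (by simp [ar]; omega)).1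
  obtain ⟨k, e2⟩ := (g0.arg (i + 1)).num (by
    have := g0.p.2.1 (i + 1)
    rw [e'] at this
    exact (this (by simp [ar]; omega)).1)
  have m1 := mu (M := M) (q0 := q0) (t := .ap _ ts) a i rfl
  have m2 : Step (R M q0) _ (Mk i false (B M a i _) _) :=
    Rt.step ⟨.rho a i, 0, by simp, (⟨rfl, rfl, a', e'⟩ : hd (.ap _ ts) = _ ∧ _), rfl⟩
  rw [e1] at m1 c
  rw [e2] at m2 c
  obtain ⟨n, e1⟩ : ∃ k, A M a i (num n : T Q K Empty) = num k := by
    cases a <;> simp only [A, Option.elim] <;> split_ifs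
    exacts [⟨_, rfl⟩, ⟨0, rfl⟩, ⟨n + 1, rfl⟩, ⟨_, rfl⟩]
  obtain ⟨k, e2⟩ : ∃ n, B M a i (num k : T Q K Empty) = num n := by
    cases a <;> simp only [B, Option.elim] <;> try split_ifs
    exacts [⟨_, rfl⟩, ⟨k + 1, rfl⟩, ⟨_, rfl⟩]
  rw [e1] at m1 c
  rw [e2] at m2 c
  exact ineq_of m1 m2 fun e => c (e ▸ rfl)

theorem ab_iff {q b} {σ : St} (h : b = true ↔ σ (M.reg q) = 0) (i : ℕ) :
    A M (some (q, b)) i (num (σ i)) = B M (some (q, b)) i y ↔ y = num (app (M.eff q b) (M.reg q) σ i) := by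
  have := M.nodec q
  by_cases e : M.reg q = i <;> rcases e' : M.eff q b with _ | _ | _ <;>
    simp [A, B, e, e', app, eq_comm, num, Ne.symm]
  obtain ⟨n, e1⟩ : ∃ n, σ i = n + 1 := ⟨σ i - 1, by cases b <;> simp_all; omega⟩
  simp [e1, num]

theorem hz {n : ℕ} : hd (num n : T Q K Empty) = .z ↔ n = 0 := by cases n <;> simp [num]

theorem halts_of (hK : ∀ q, M.reg q ≤ K) (h : Good M q0 t) : ∀ q b σ, hd t = .c (some (q, b)) →
    (∀ i ≤ K, arg t (i + 1) = num (σ i)) → Halts (M.step 0) (q, σ) := by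
  induction t using Tm.ind with | h f ts ih =>
  intro q b σ e h1
  cases e
  have h2 := ((h.1.2.1 (M.reg q + 1) (by simp [ar]; have := hK q; omega)).2 q b rfl rfl).symm
  rw [h1 _ (hK q), hz] at h2
  have h3 : M.tst 0 (q, σ) = b := by cases b <;> simp_all [CM.tst, CM.thr]
  cases e : M.nxt q b with
  | none => exact .stop (by simp [CM.step, h3, e])
  | some q' =>
    obtain ⟨b', h4⟩ := h.1.2.1 0 (by simp) q' e
    refine .go (by simp only [CM.step, h3, e]; rfl) (ih 0 (h.2 0) q' b' _ h4 fun i hi => ?_)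
    exact (ab_iff h2 i).1 (h1 i hi ▸ h.1.2.2 _ _ ⟨i, by omega⟩ rfl h4)

def nd (a : Option (Q × Bool)) (t : T Q K Empty) (σ : St) : T Q K Empty :=
  .ap (.c a) (Fin.cons t fun i : Fin (K + 1) => num (σ i))

theorem nd_arg {a σ i} (h : i ≤ K) : arg (nd a t σ) (i + 1) = num (σ i) :=
  arg_ap (.c a) _ (Fin.succ ⟨i, by omega⟩)

theorem good_nd {a σ} (h : Good M q0 t) (h1 : ok M q0 (.c a) 0 (hd t))
    (h2 : ∀ q b, a = some (q, b) → (b = true ↔ σ (M.reg q) = 0))
    (h3 : ∀ a', hd t = .c a' → ∀ i ≤ K, A M a i (num (σ i)) = B M a i (arg t (i + 1))) : Good M q0 (nd a t σ) := by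
  refine ⟨⟨by simp, fun j hj => ?_, fun _ a' i e e' => ?_⟩, Fin.cases h fun i => good_num _⟩
  · rcases j with _ | j
    · exact h1
    · erw [nd_arg (by simp [ar] at hj; omega)]
      exact ⟨hd_num _, fun q b e e' => by rw [hz, h2 q b e, e']⟩
  · cases e
    erw [nd_arg i.is_le]
    exact h3 a' e' i i.is_le

theorem of_halts {c} (h : Halts (M.step 0) c) :
    ∃ t b, Good M q0 (nd (some (c.1, b)) (t : T Q K Empty) c.2) := by
  have key : ∀ c : Q × St, M.tst 0 c = true ↔ c.2 (M.reg c.1) = 0 := by simp [CM.tst, CM.thr]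
  induction h with
  | @stop c h =>
    exact ⟨Z, M.tst 0 c, good_nd good_Z (by simp_all [ok, CM.step]) (by rintro _ _ ⟨⟩; exact key c) (by simp)⟩
  | @go c c' h _ ih =>
    obtain ⟨t, b, ih⟩ := ih
    obtain ⟨q, h1, rfl⟩ := Option.map_eq_some_iff.1 h
    exact ⟨_, M.tst 0 c, good_nd ih (by simp [ok, h1, nd]) (by rintro _ _ ⟨⟩; exact key c)
      fun _ _ i hi => (ab_iff (key c) i).2 (nd_arg hi)⟩

theorem halts_iff' (hK : ∀ q, M.reg q ≤ K) {n : ℕ} : Halts (M.step 0) (q0, init n) ↔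
    ∃ x : T Q K Empty, Good M q0 x ∧ hd x = .c none ∧ arg x 1 = num n := by
  constructor
  · intro h
    obtain ⟨t, b, h⟩ := of_halts (K := K) (q0 := q0) h
    refine ⟨nd none _ (init n), good_nd h (by simp [ok, nd]) (by simp) fun _ _ i hi => ?_, rfl, nd_arg (by simp)⟩
    rw [nd_arg hi]
    cases i <;> simp [A, B, init, num]
  · rintro ⟨x, h, h1, h2⟩
    obtain ⟨b, h3⟩ : ∃ b, hd (arg x 0) = .c (some (q0, b)) := by simpa [h1, ok] using h.p.2.1 0
    refine halts_of hK (h.arg 0) _ _ _ h3 fun i hi => ?_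
    have := h.p.2.2 _ _ ⟨i, by omega⟩ h1 h3
    cases i <;> simp_all [A, B, init, num]

def Ze (M : CM Q) (q0 : Q) (z : T Q K Empty) : Prop := ∀ x, Nu M q0 x ∨ x = z ∨ Step (R M q0) x z

theorem all_nu {p : T Q K Empty → Prop} : (∀ x, Nu M q0 x ∨ p x) ↔ ∀ n, p (num n) :=
  ⟨fun h n => (h _).resolve_left fun h => nu_iff.1 h n rfl, fun h x => or_iff_not_imp_left.2 fun e => by
    obtain ⟨n, rfl⟩ : ∃ n, x = num n := by simpa [nu_iff] using e
    exact h n⟩

theorem ze_iff : Ze M q0 t ↔ t = Z := by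
  rw [Ze, all_nu]
  refine ⟨fun h => ((h 0).resolve_right st_z).symm, ?_⟩
  rintro rfl (_ | n)
  exacts [.inl rfl, .inr (kap (.inl rfl))]

theorem su_iff {n : ℕ} : (Step (R M q0) t (num n) ∧ ∀ x, Nu M q0 x ∨ x = t ∨ Step (R M q0) x t ∨ x = num n ∨
    Step (R M q0) (num n) x) ↔ t = num (n + 1) := by
  rw [all_nu]
  simp only [num_inj, st_nn]
  constructor
  · rintro ⟨h1, h2⟩
    rcases h2 (n + 1) with h | h | h
    · exact h.symm
    · obtain ⟨k, h, rfl⟩ := st_num.1 h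
      have := st_nn.1 h1
      omega
    · omega
  · rintro rfl
    simp only [num_inj, st_nn]
    exact ⟨by omega, fun _ => by omega⟩

theorem main (hK : ∀ q, M.reg q ≤ K) (n : ℕ) : (∀ x : T Q K Empty, C2 M q0 x ∨ Ineq M q0 x ∨
    (∃ u, Step (R M q0) x u ∧ (Step (R M q0) (num (n + 1)) u ∨ Step (R M q0) u (num (n + 1)) ∧ Step (R M q0) u Z)) ∨
    Step (R M q0) x Z ∨ x = Z) ↔ ¬Halts (M.step 0) (q0, init n) := by
  have nz : ∀ u : T Q K Empty, Step (R M q0) u Z → hd u = .s ∨ ∃ a, hd u = .c (some a) := fun u h => by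
    rcases (h.rt fun e => st_z (eq_Z e.symm ▸ h)).cs with h | ⟨-, h⟩ | h
    exacts [h.2, by simpa using congrArg hd h, by simp at h]
  rw [halts_iff' hK]
  constructor
  · rintro h ⟨x, h1, h2, h3⟩
    have ex : ∀ u, Step (R M q0) x u → hd u = .c none ∨ u = num (n + 1) ∨ ∃ i b, hd u = .m i b := fun u h =>
      or_iff_not_imp_left.2 fun e => by simpa [h2, h3, num] using (h.rt (h2 ▸ e)).cs
    rcases h x with h | h | ⟨u, a, b | ⟨b, c⟩⟩ | h | rfl
    · exact (good_iff.1 h1).1 h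
    · exact (good_iff.1 h1).2 h
    · obtain ⟨k, b, rfl⟩ := st_num.1 b
      have := ex _ a
      have := hd_num (Q := Q) (K := K) k
      simp only [num_inj] at *
      grind
    · have := ex _ a
      have := nz _ c
      have := @irr Q K M q0 u
      grind
    · simpa [h2] using nz _ h
    · simp at h2
  · intro h x
    by_contra c
    simp only [not_or] at c
    obtain ⟨c1, c2, c3, c4, c5⟩ := c
    have g := good_iff.2 ⟨c1, c2⟩
    rcases e : hd x with _ | _ | (_ | a) | ⟨i, b⟩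
    · exact c5 (eq_Z e)
    · exact c4 (kap (.inl e))
    · obtain ⟨k, e'⟩ := (g.arg 1).num (by have := g.p.2.1 1; rw [e] at this; exact (this (by simp)).1)
      refine c3 ⟨num (k + 1), Rt.step ⟨.ext, 0, by simp [e], e, by rw [out, e', num]⟩, ?_⟩
      have : k ≠ n := fun e1 => h ⟨x, g, e, e1 ▸ e'⟩
      rw [show Z = num 0 from rfl]
      simp only [st_nn]
      omega
    · exact c4 (kap (.inr ⟨a, e⟩))
    · exact g.p.1 i b e

variable {n : ℕ}

def fC (i : Fin n) : Fm n := .ex (.and (.rel i.succ 0) (.rel 0 i.succ))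
def fN (i : Fin n) : Fm n := .ex (.and (.rel i.succ 0) (fC 0))
def fZ (i : Fin n) : Fm n := .all (.or (fN 0) (.or (.eq 0 i.succ) (.rel 0 i.succ)))
def fR (i : Fin n) : Fm n := .ex (.and (fZ 0) (.rel i.succ 0))
def fS (i j : Fin n) : Fm n := .and (.rel j i) (.all (.or (fN 0) (.or (.eq 0 j.succ) (.or (.rel 0 j.succ)
  (.or (.eq 0 i.succ) (.rel i.succ 0))))))
def fI (i : Fin n) : Fm n := .ex (.ex (.and (.rel i.succ.succ 1) (.and (.rel i.succ.succ 0)
  (.and (.rel 1 0) (.and (fC 1) (fC 0))))))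
def fNum : ℕ → ∀ {n}, Fm (n + 1)
  | 0, _ => fZ 0
  | k + 1, _ => .ex (.and (fNum k) (fS 0 1))
def fM : Fm 1 := .all (.or (fC 0) (.or (fI 0) (.or (.ex (.and (.rel 1 0) (.or (.rel 2 0) (.and (.rel 0 2) (fR 0)))))
  (.or (fR 0) (fZ 0)))))

theorem sZe (i : Fin n) (v : Fin n → T Q K Empty) : (fZ i).Sat (Step (R M q0)) v ↔ v i = Z := ze_iff

theorem sR (i : Fin n) (v : Fin n → T Q K Empty) : (fR i).Sat (Step (R M q0)) v ↔ Step (R M q0) (v i) Z := by
  simp [fR, Fm.Sat, sZe]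

theorem sNum (k : ℕ) (v : Fin (n + 1) → T Q K Empty) : (fNum k).Sat (Step (R M q0)) v ↔ v 0 = num k := by
  induction k generalizing n with
  | zero => exact sZe 0 v
  | succ k ih =>
    simp only [fNum, Fm.Sat, ih, Fin.cons_zero, exists_eq_left]
    exact su_iff

theorem sAll (hK : ∀ q, M.reg q ≤ K) (k : ℕ) : (Fm.ex (.and (fNum (k + 1)) fM)).Sat
    (Step (R M q0 (K := K))) Fin.elim0 ↔ ¬Halts (M.step 0) (q0, init k) := by
  simp only [fM, Fm.Sat, sNum, Fin.cons_zero, exists_eq_left, sR, sZe]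
  exact main hK k

theorem cNum (k : ℕ) : (fNum k (n := n)).code =
    (fun c => Nat.pair 4 (Nat.pair 2 (Nat.pair c (fS (0 : Fin 2) 1).code)))^[k] (fZ (0 : Fin 1)).code := by
  induction k generalizing n with
  | zero => simp only [fNum, fZ, fN, fC, Fm.code, Fin.val_succ, Fin.val_zero, iterate_zero_apply]
  | succ k ih =>
    rw [iterate_succ_apply', ← ih (n := n + 1)]
    simp only [fNum, fS, fN, fC, Fm.code, Fin.val_succ, Fin.val_zero, Fin.val_one]

end Pool.Agent.H.MP_342291_lc
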