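import Mathlib

/-! Terms, one-step rewriting and positive formulas. -/

set_option autoImplicit false

namespace Pool.Agent.H.MP_342291_lc

/-- terms over the symbols `S` with arities `ar` and variables `V` -/
inductive Tm {S : Type} (ar : S → ℕ) (V : Type)
  | var (x : V)
  | ap (f : S) (ts : Fin (ar f) → Tm ar V)

variable {S : Type} {ar : S → ℕ}

def Tm.subst {V W : Type} (σ : V → Tm ar W) : Tm ar V → Tm ar W
  | .var x => σ x
  | .ap f ts => .ap f fun i => (ts i).subst σ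

def Tm.vars {V : Type} : Tm ar V → Set V
  | .var x => {x}
  | .ap _ ts => ⋃ i, (ts i).vars

/-- one-step rewriting of ground terms -/
inductive Step (R : Set (Tm ar ℕ × Tm ar ℕ)) : Tm ar Empty → Tm ar Empty → Prop
  | root {l r} (σ : ℕ → Tm ar Empty) : (l, r) ∈ R → Step R (l.subst σ) (r.subst σ)
  | arg {f ts i u} : Step R (ts i) u → Step R (.ap f ts) (.ap f (Function.update ts i u))

/-- positive formulas with `n` free variables -/
inductive Fm : ℕ → Type
  | eq {n} (i j : Fin n) : Fm n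
  | rel {n} (i j : Fin n) : Fm n
  | and {n} : Fm n → Fm n → Fm n
  | or {n} : Fm n → Fm n → Fm n
  | ex {n} : Fm (n + 1) → Fm n
  | all {n} : Fm (n + 1) → Fm n

def Fm.Sat {T : Type} (r : T → T → Prop) : ∀ {n}, Fm n → (Fin n → T) → Prop
  | _, .eq i j, v => v i = v j
  | _, .rel i j, v => r (v i) (v j)
  | _, .and φ ψ, v => φ.Sat r v ∧ ψ.Sat r v
  | _, .or φ ψ, v => φ.Sat r v ∨ ψ.Sat r v
  | _, .ex φ, v => ∃ t, φ.Sat r (Fin.cons t v)
  | _, .all φ, v => ∀ t, φ.Sat r (Fin.cons t v)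

def Fm.code : ∀ {n}, Fm n → ℕ
  | _, .eq i j => Nat.pair 0 (Nat.pair i j)
  | _, .rel i j => Nat.pair 1 (Nat.pair i j)
  | _, .and φ ψ => Nat.pair 2 (Nat.pair φ.code ψ.code)
  | _, .or φ ψ => Nat.pair 3 (Nat.pair φ.code ψ.code)
  | _, .ex φ => Nat.pair 4 φ.code
  | _, .all φ => Nat.pair 5 φ.code

end Pool.Agent.H.MP_342291_lc
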